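import Pool.Agent.H12.KG.Targets2

/-!
# COMB: the last step, combinatorial form
-/

namespace Pool.Agent.H12.KG

universe u

section comb

variable {I1 I0 : Type u} [DecidableEq I1] [DecidableEq I0] {G1 : I1 → Type u}
  {G0 : I0 → Type u} [∀ i, AddCommGroup (G1 i)] [∀ i, AddCommGroup (G0 i)]
  (dd : (Π₀ w, G1 w) →+ (Π₀ v, G0 v))

/-- matrix entry -/
noncomputable def ent (w : I1) (v : I0) : G1 w →+ G0 v :=
  (DFinsupp.evalAddMonoidHom v).comp (dd.comp (DFinsupp.singleAddHom G1 w))

theorem ent_apply (w : I1) (v : I0) (c : G1 w) : ent dd w v c = dd (DFinsupp.single w c) v := rfl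

theorem dd_sum (F : Π₀ w, G1 w) (T : Finset I1) (hT : ∀ w, w ∉ T → F w = 0) (v : I0) :
    dd F v = ∑ w ∈ T, ent dd w v (F w) := by
  have hF : F = ∑ w ∈ T, DFinsupp.single w (F w) := by
    ext i
    rw [DFinsupp.finsetSum_apply]
    by_cases hi : i ∈ T
    · rw [Finset.sum_eq_single i]
      · simp
      · intro b _ hb
        exact DFinsupp.single_eq_of_ne (Ne.symm hb)
      · intro h; exact absurd hi h
    · rw [hT i hi, Finset.sum_eq_zero]
      intro b hb
      refine DFinsupp.single_eq_of_ne ?_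
      rintro rfl
      exact hi hb
  conv_lhs => rw [hF]
  rw [map_sum, DFinsupp.finsetSum_apply]
  rfl

/-- multiples of `q` -/
def Dq (G : Type u) [AddCommGroup G] (q : ℕ) : AddSubgroup G := (nsmulAddMonoidHom q).range

theorem mem_Dq {G : Type u} [AddCommGroup G] {q : ℕ} {g : G} :
    g ∈ Dq G q ↔ ∃ c, g = q • c :=
  ⟨fun ⟨c, hc⟩ => ⟨c, hc.symm⟩, fun ⟨c, hc⟩ => ⟨c, hc.symm⟩⟩

theorem ent_Dq (q : ℕ) (w : I1) (v : I0) {g : G1 w} (hg : g ∈ Dq (G1 w) q) :
    ent dd w v g ∈ Dq (G0 v) q := by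
  obtain ⟨c, hc⟩ := mem_Dq.1 hg
  exact mem_Dq.2 ⟨ent dd w v c, by rw [hc, map_nsmul]⟩

end comb

theorem pf_COMB : S_COMB.{u} := by
  classical
  intro X rel hrefl htrans Sp Cl q I1 I0 _ _ p1 p0 G1 G0 _ _ dd UG hl hSp hcl hclSp hgen hN huc
    hP1 hWA J _ U hU hcov h z hz hh hv
  have : Fintype J := Fintype.ofFinite J
  choose a ha using hcov
  choose cx hcx hcxCl using hcl
  -- the global lift
  have key : ∀ w, ∃ g : G1 w, ((∀ j, h j w = 0) → g = 0) ∧
      (¬ Sp (p1 w) → ∀ y, Gen rel Sp (p1 w) y → g - h (a y) w ∈ UG w y) ∧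
      (Sp (p1 w) → g = h (a (p1 w)) w) := by
    intro w
    by_cases h0 : ∀ j, h j w = 0
    · refine ⟨0, fun _ => rfl, fun _ y _ => ?_, fun _ => (h0 _).symm⟩
      rw [h0, sub_zero]
      exact zero_mem _
    · by_cases hs : Sp (p1 w)
      · exact ⟨h (a (p1 w)) w, fun h1 => absurd h1 h0, fun h1 => absurd hs h1, fun _ => rfl⟩
      · obtain ⟨g, hg⟩ := hWA w hs (fun y => h (a y) w)
        exact ⟨g, fun h1 => absurd h1 h0, fun _ => hg, fun h1 => absurd h1 hs⟩
  choose H0 hH0 hH1 hH2 using key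
  set T : Finset I1 := Finset.univ.biUnion (fun j => (h j).support) with hT
  have hTn : ∀ w, w ∉ T → ∀ j, h j w = 0 := by
    intro w hw j
    by_contra hne
    apply hw
    rw [hT, Finset.mem_biUnion]
    exact ⟨j, Finset.mem_univ _, DFinsupp.mem_support_iff.2 hne⟩
  set h0 : Π₀ w, G1 w := DFinsupp.mk T (fun w => H0 w) with hh0
  have hh0a : ∀ w, h0 w = H0 w := by
    intro w
    rw [hh0, DFinsupp.mk_apply]
    by_cases hw : w ∈ T
    · rw [dif_pos hw]
    · rw [dif_neg hw, hH0 w (hTn w hw)]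
  have hentl : ∀ w v, ¬ rel (p1 w) (p0 v) → ∀ c, ent dd w v c = 0 := by
    intro w v hr c
    by_contra hne
    exact hr (hl w c v hne)
  -- the local differences
  have hdiff : ∀ j v, dd (h j) v - dd h0 v = ∑ w ∈ T, ent dd w v (h j w - H0 w) := by
    intro j v
    rw [dd_sum dd (h j) T (fun w hw => hTn w hw j) v,
      dd_sum dd h0 T (fun w hw => by rw [hh0a, hH0 w (hTn w hw)]) v, ← Finset.sum_sub_distrib]
    refine Finset.sum_congr rfl fun w _ => ?_
    rw [hh0a, map_sub]
  have hgU : ∀ x w, ¬ Sp (p1 w) → ∀ y, Gen rel Sp (p1 w) y → rel y x →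
      h (a x) w - H0 w ∈ UG w y := by
    intro x w hs y hy hyx
    have e1 := hh (a x) (a y) w y (hU _ _ _ (ha x) hyx) (ha y) hs hy
    have e2 := hH1 w hs y hy
    have e3 := (UG w y).sub_mem e1 e2
    have e4 : h (a x) w - h (a y) w - (H0 w - h (a y) w) = h (a x) w - H0 w := by abel
    rwa [e4] at e3
  -- correction terms
  have key2 : ∀ x w, ∃ ξ : G1 w, ¬ Sp (p1 w) → Cl x → rel (p1 w) x →
      (∀ v, rel (p1 w) (p0 v) → rel (p0 v) x →
        ent dd w v ξ - ent dd w v (h (a x) w - H0 w) ∈ Dq (G0 v) q) ∧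
      ∀ x', Cl x' → x' ≠ x → ∀ v, rel (p1 w) (p0 v) → rel (p0 v) x' →
        ent dd w v ξ ∈ Dq (G0 v) q := by
    intro x w
    by_cases hc : ¬ Sp (p1 w) ∧ Cl x ∧ rel (p1 w) x
    · obtain ⟨hs, hclx, hr⟩ := hc
      obtain ⟨ξ, h1, h2⟩ := hP1 w hs x hclx hr (h (a x) w - H0 w) (hgU x w hs)
      refine ⟨ξ, fun _ _ _ => ⟨fun v hv1 hv2 => ?_, fun x' hx' hne v hv1 hv2 => ?_⟩⟩
      · rw [← map_sub]
        exact mem_Dq.2 (h1 v hv1 hv2)
      · exact mem_Dq.2 (h2 x' hx' hne v hv1 hv2)
    · exact ⟨0, fun h1 h2 h3 => absurd ⟨h1, h2, h3⟩ hc⟩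
  choose Ξ hΞ using key2
  -- the finite set of closed points
  set S : Finset I0 := Finset.univ.biUnion (fun j => T.biUnion
    (fun w => (dd (DFinsupp.single w (h j w - H0 w))).support)) with hS
  have hSn : ∀ v, v ∉ S → ∀ j, ∀ w ∈ T, ent dd w v (h j w - H0 w) = 0 := by
    intro v hv j w hw
    by_contra hne
    apply hv
    rw [hS, Finset.mem_biUnion]
    refine ⟨j, Finset.mem_univ _, ?_⟩
    rw [Finset.mem_biUnion]
    exact ⟨w, hw, DFinsupp.mem_support_iff.2 hne⟩
  set P : Finset X := S.image (fun v => cx (p0 v)) with hP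
  have hPCl : ∀ x ∈ P, Cl x := by
    intro x hx
    rw [hP, Finset.mem_image] at hx
    obtain ⟨v, _, rfl⟩ := hx
    exact hcxCl _
  set TT : X → Finset I1 := fun x => T.filter (fun w => ¬ Sp (p1 w) ∧ rel (p1 w) x) with hTT
  set h1 : Π₀ w, G1 w := ∑ x ∈ P, ∑ w ∈ TT x, DFinsupp.single w (Ξ x w) with hh1
  have hh1v : ∀ v, dd h1 v = ∑ x ∈ P, ∑ w ∈ TT x, ent dd w v (Ξ x w) := by
    intro v
    rw [hh1, map_sum, DFinsupp.finsetSum_apply]
    refine Finset.sum_congr rfl fun x _ => ?_
    rw [map_sum, DFinsupp.finsetSum_apply]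
    rfl
  -- the main congruence
  have main : ∀ v, z v - dd (h0 + h1) v ∈ Dq (G0 v) q := by
    intro v
    set xv := cx (p0 v) with hxv
    have hrx : rel (p0 v) xv := hcx _
    have hclx : Cl xv := hcxCl _
    by_cases hs : Sp (p0 v)
    · -- vertical
      have e1 : dd (h (a (p0 v))) v - z v ∈ Dq (G0 v) q :=
        mem_Dq.2 (hz (a (p0 v)) v (p0 v) (ha _) (hrefl _) hs)
      have e2 : dd (h (a (p0 v))) v - dd h0 v ∈ Dq (G0 v) q := by
        rw [hdiff]
        refine AddSubgroup.sum_mem _ fun w _ => ?_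
        by_cases hr : rel (p1 w) (p0 v)
        · by_cases hs1 : Sp (p1 w)
          · apply ent_Dq
            rw [hH2 w hs1]
            exact mem_Dq.2 (hv (a (p0 v)) (a (p1 w)) w (hU _ _ _ (ha _) hr) (ha _) hs1)
          · have hg := hgen w v hs1 hs hr
            have e3 := hH1 w hs1 (p0 v) hg
            have e4 := hN w v hs1 hs hr _ e3
            have e5 : ent dd w v (H0 w - h (a (p0 v)) w) ∈ Dq (G0 v) q := mem_Dq.2 e4
            have e6 := (Dq (G0 v) q).neg_mem e5
            rwa [← map_neg, neg_sub] at e6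
        · rw [hentl w v hr]
          exact zero_mem _
      have e3 : dd h1 v ∈ Dq (G0 v) q := by
        rw [hh1v]
        refine AddSubgroup.sum_mem _ fun x hx => AddSubgroup.sum_mem _ fun w hw => ?_
        have hw' := (Finset.mem_filter.1 hw).2
        by_cases hr : rel (p1 w) (p0 v)
        · obtain ⟨k1, k2⟩ := hΞ x w hw'.1 (hPCl x hx) hw'.2
          by_cases hxx : xv = x
          · rw [hxx] at hrx
            have e4 := k1 v hr hrx
            have hg := hgen w v hw'.1 hs hr
            have e5 := hN w v hw'.1 hs hr _ (hgU x w hw'.1 (p0 v) hg hrx)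
            have e6 : ent dd w v (h (a x) w - H0 w) ∈ Dq (G0 v) q := mem_Dq.2 e5
            have e7 := (Dq (G0 v) q).add_mem e4 e6
            rwa [sub_add_cancel] at e7
          · exact k2 xv hclx hxx v hr hrx
        · rw [hentl w v hr]
          exact zero_mem _
      have e4 : z v - dd (h0 + h1) v =
          (dd (h (a (p0 v))) v - dd h0 v) - (dd (h (a (p0 v))) v - z v) - dd h1 v := by
        rw [map_add, DFinsupp.add_apply]; abel
      rw [e4]
      exact AddSubgroup.sub_mem _ (AddSubgroup.sub_mem _ e2 e1) e3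
    · -- horizontal
      have e1 : dd (h (a xv)) v - z v ∈ Dq (G0 v) q :=
        mem_Dq.2 (hz (a xv) v xv (ha _) hrx (hclSp _ hclx))
      have e2 : dd h1 v - ∑ w ∈ T, ent dd w v (h (a xv) w - H0 w) ∈ Dq (G0 v) q := by
        -- the contribution of the other points
        have o1 : ∀ x ∈ P, x ≠ xv → ∑ w ∈ TT x, ent dd w v (Ξ x w) ∈ Dq (G0 v) q := by
          intro x hx hne
          refine AddSubgroup.sum_mem _ fun w hw => ?_
          have hw' := (Finset.mem_filter.1 hw).2
          by_cases hr : rel (p1 w) (p0 v)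
          · exact (hΞ x w hw'.1 (hPCl x hx) hw'.2).2 xv hclx (Ne.symm hne) v hr hrx
          · rw [hentl w v hr]
            exact zero_mem _
        -- the sum over T is the sum over TT xv
        have o2 : ∑ w ∈ T, ent dd w v (h (a xv) w - H0 w) =
            ∑ w ∈ TT xv, ent dd w v (h (a xv) w - H0 w) := by
          symm
          refine Finset.sum_subset (Finset.filter_subset _ _) fun w hw hw2 => ?_
          apply hentl
          intro hr
          apply hw2
          rw [hTT]
          refine Finset.mem_filter.2 ⟨hw, fun hs1 => hs (hSp _ _ hr hs1), htrans _ _ _ hr hrx⟩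
        have o3 : ∑ w ∈ TT xv, ent dd w v (Ξ xv w) -
            ∑ w ∈ TT xv, ent dd w v (h (a xv) w - H0 w) ∈ Dq (G0 v) q := by
          rw [← Finset.sum_sub_distrib]
          refine AddSubgroup.sum_mem _ fun w hw => ?_
          have hw' := (Finset.mem_filter.1 hw).2
          by_cases hr : rel (p1 w) (p0 v)
          · exact (hΞ xv w hw'.1 hclx hw'.2).1 v hr hrx
          · rw [hentl w v hr, hentl w v hr, sub_zero]
            exact zero_mem _
        rw [hh1v, o2]
        by_cases hxP : xv ∈ P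
        · rw [← Finset.add_sum_erase _ _ hxP, add_sub_right_comm]
          refine AddSubgroup.add_mem _ o3 (AddSubgroup.sum_mem _ fun x hx => ?_)
          exact o1 x (Finset.mem_of_mem_erase hx) (Finset.ne_of_mem_erase hx)
        · have hvS : v ∉ S := by
            intro hvS
            apply hxP
            rw [hP]
            exact Finset.mem_image.2 ⟨v, hvS, rfl⟩
          have o4 : ∑ w ∈ TT xv, ent dd w v (h (a xv) w - H0 w) = 0 :=
            Finset.sum_eq_zero fun w hw => hSn v hvS (a xv) w (Finset.mem_filter.1 hw).1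
          rw [o4, sub_zero]
          refine AddSubgroup.sum_mem _ fun x hx => o1 x hx ?_
          rintro rfl
          exact hxP hx
      have e3 := hdiff (a xv) v
      have e4 : z v - dd (h0 + h1) v =
          -(dd (h (a xv)) v - z v) -
            (dd h1 v - ∑ w ∈ T, ent dd w v (h (a xv) w - H0 w)) := by
        rw [map_add, DFinsupp.add_apply, ← e3]; abel
      rw [e4]
      exact AddSubgroup.sub_mem _ (AddSubgroup.neg_mem _ e1) e2
  have main2 : ∀ v, ∃ c : G0 v, z v - dd (h0 + h1) v = q • c ∧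
      (z v - dd (h0 + h1) v = 0 → c = 0) := by
    intro v
    by_cases h2 : z v - dd (h0 + h1) v = 0
    · exact ⟨0, by rw [h2, smul_zero], fun _ => rfl⟩
    · obtain ⟨c, hc⟩ := mem_Dq.1 (main v)
      exact ⟨c, hc, fun h3 => absurd h3 h2⟩
  choose c hc hc0 using main2
  refine ⟨h0 + h1, DFinsupp.mk (z - dd (h0 + h1)).support (fun v => c v), ?_⟩
  ext v
  rw [DFinsupp.add_apply, DFinsupp.smul_apply, DFinsupp.mk_apply]
  by_cases hv2 : v ∈ (z - dd (h0 + h1)).support
  · rw [dif_pos hv2]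
    have := hc v
    rw [← this]; abel
  · rw [dif_neg hv2, smul_zero, add_zero]
    rw [DFinsupp.mem_support_iff, not_not, DFinsupp.sub_apply, sub_eq_zero] at hv2
    exact hv2

end Pool.Agent.H12.KG
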