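import Pool.Agent.H12.KG.Targets

/-!
# Project KEW, block G: INTB (helper12)
-/

namespace Pool.Agent.H12.KG

open AlgebraicGeometry CategoryTheory Pool.Agent.H12.KP

universe u

theorem intb_jac {O R : Type u} [CommRing O] [IsLocalRing O] [CommRing R] [Algebra O R]
    [Algebra.IsIntegral O R] (π : O) (hπ : π ∈ IsLocalRing.maximalIdeal O) (y : R) :
    IsUnit (1 + algebraMap O R π * y) := by
  by_contra h
  obtain ⟨m, hm, hmem⟩ := exists_max_ideal_of_mem_nonunits h
  have h1 : (m.comap (algebraMap O R)).IsMaximal :=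
    Ideal.isMaximal_comap_of_isIntegral_of_isMaximal (R := O) m
  have h2 : m.comap (algebraMap O R) = IsLocalRing.maximalIdeal O := IsLocalRing.eq_maximalIdeal h1
  have h3 : algebraMap O R π ∈ m := by
    have : π ∈ m.comap (algebraMap O R) := by rw [h2]; exact hπ
    exact this
  have h4 : (1 : R) ∈ m := by
    have h5 := m.sub_mem hmem (m.mul_mem_right y h3)
    rwa [add_sub_cancel_right] at h5
  exact hm.ne_top ((Ideal.eq_top_iff_one m).2 h4)

theorem pf_INTB (hBIN : S_BIN.{u}) : S_INTB.{u} := by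
  intro O K _ _ _ φ p hp π ε hπ hε e a r hpe ha1 hea hfrac b hb
  letI := φ.toAlgebra
  have hbi : IsIntegral O b := hb
  let R : Subalgebra O K := Algebra.adjoin O {b}
  have hfg : (Subalgebra.toSubmodule R).FG := hbi.fg_adjoin_singleton
  have hfin : Module.Finite O R := Module.Finite.iff_fg.2 hfg
  have hint : Algebra.IsIntegral O R := Algebra.IsIntegral.of_finite O R
  have hbR : b ∈ R := Algebra.subset_adjoin rfl
  -- (1)
  obtain ⟨M, hM⟩ : ∃ M : ℕ, ∀ y ∈ R, ∃ s : O, φ π ^ M * y = φ s := by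
    obtain ⟨S, hS⟩ := hfg
    choose m s hms using hfrac
    refine ⟨S.sup m, fun y hy => ?_⟩
    have hy' : y ∈ Submodule.span O (S : Set K) := by rw [hS]; exact hy
    induction hy' using Submodule.span_induction with
    | mem x hx =>
      refine ⟨π ^ (S.sup m - m x) * s x, ?_⟩
      have h1 : m x ≤ S.sup m := Finset.le_sup hx
      rw [map_mul, map_pow, ← hms x, ← mul_assoc, ← pow_add, Nat.sub_add_cancel h1]
    | zero => exact ⟨0, by rw [mul_zero, map_zero]⟩
    | add x z _ _ hx hz =>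
      obtain ⟨s1, h1⟩ := hx (by rw [← Subalgebra.mem_toSubmodule, ← hS]; assumption)
      obtain ⟨s2, h2⟩ := hz (by rw [← Subalgebra.mem_toSubmodule, ← hS]; assumption)
      exact ⟨s1 + s2, by rw [mul_add, h1, h2, map_add]⟩
    | smul c x _ hx =>
      obtain ⟨s1, h1⟩ := hx (by rw [← Subalgebra.mem_toSubmodule, ← hS]; assumption)
      refine ⟨c * s1, ?_⟩
      have : c • x = φ c * x := rfl
      rw [this, map_mul, ← h1]
      ring
  -- the image of p
  set P : R := algebraMap O R π with hP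
  have hpR : ((p : ℕ) : R) = algebraMap O R ε * P ^ e := by
    rw [hP, ← map_pow, ← map_mul, ← hpe, map_natCast]
  have claim : ∀ j : ℕ, ∀ y : R, ∃ u : Rˣ, ∃ y' : R,
      1 + P ^ (a + r * e) * y = (u : R) ^ (p ^ r) * (1 + P ^ (a + j + r * e) * y') := by
    intro j
    induction j with
    | zero => intro y; exact ⟨1, y, by simp⟩
    | succ j ih =>
      intro y
      obtain ⟨u, y', hu⟩ := ih y
      obtain ⟨ε', hε'⟩ := hε
      set y0 : R := algebraMap O R ((ε'⁻¹ : Oˣ) : O) ^ r * y' with hy0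
      obtain ⟨z, hz⟩ := hBIN R p hp P (algebraMap O R ε) e a hpR ha1 hea r (a + j)
        (Nat.le_add_right a j) 1 y0
      have hu1 : IsUnit (1 + P ^ (a + j) * y0) := by
        have e1 : P ^ (a + j) * y0 = P * (P ^ (a + j - 1) * y0) := by
          have e7 : a + j = (a + j - 1) + 1 := by omega
          have e8 : P ^ (a + j) = P * P ^ (a + j - 1) := by
            conv_lhs => rw [e7]
            rw [pow_succ']
          rw [e8, mul_assoc]
        rw [e1]
        exact intb_jac π hπ _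
      obtain ⟨u1, hu1⟩ := hu1
      have e2 : algebraMap O R ε ^ r * 1 ^ (p ^ r - 1) * y0 = y' := by
        rw [hy0, one_pow, mul_one, ← mul_assoc, ← mul_pow, ← map_mul, ← hε', Units.mul_inv, map_one,
          one_pow, one_mul]
      rw [e2, one_pow, ← hu1] at hz
      have e3 : (1 : R) + P ^ (a + j + r * e) * y' = (u1 : R) ^ (p ^ r) *
          (1 + P ^ (a + (j + 1) + r * e) * (-(z * ((u1⁻¹ : Rˣ) : R) ^ (p ^ r)))) := by
        have e4 : (u1 : R) ^ (p ^ r) * ((u1⁻¹ : Rˣ) : R) ^ (p ^ r) = 1 := by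
          rw [← mul_pow, Units.mul_inv, one_pow]
        have e5 : (u1 : R) ^ (p ^ r) *
          (1 + P ^ (a + (j + 1) + r * e) * (-(z * ((u1⁻¹ : Rˣ) : R) ^ (p ^ r)))) =
            (u1 : R) ^ (p ^ r) - P ^ (a + (j + 1) + r * e) * z *
              ((u1 : R) ^ (p ^ r) * ((u1⁻¹ : Rˣ) : R) ^ (p ^ r)) := by ring
        rw [e5, e4, mul_one, hz]
        have e6 : a + (j + 1) + r * e = (a + j + r * e) + 1 := by ring
        rw [e6, pow_succ]
        ring
      refine ⟨u * u1, -(z * ((u1⁻¹ : Rˣ) : R) ^ (p ^ r)), ?_⟩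
      rw [hu, e3, Units.val_mul, mul_pow]
      ring
  obtain ⟨u, y', hu⟩ := claim M ⟨b, hbR⟩
  obtain ⟨s, hs⟩ := hM y'.1 y'.2
  refine ⟨((u : R) : K), s, ?_, ?_⟩
  · intro h0
    have h1 : (u : R) = 0 := Subtype.ext h0
    have h2 : ((u : R) * ((u⁻¹ : Rˣ) : R)) = 1 := Units.mul_inv u
    rw [h1, zero_mul] at h2
    have h3 : ((0 : R) : K) = ((1 : R) : K) := congrArg Subtype.val h2
    exact zero_ne_one h3
  · have h1 := congrArg (fun x : R => (x : K)) hu
    have hPK : ((P : R) : K) = φ π := rfl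
    have h2 : (1 : K) + φ π ^ (a + r * e) * b =
        ((u : R) : K) ^ (p ^ r) * (1 + φ π ^ (a + M + r * e) * (y' : K)) := by
      have h3 := h1
      simp only [Subalgebra.coe_add, Subalgebra.coe_mul, Subalgebra.coe_pow, Subalgebra.coe_one,
        hPK] at h3
      exact h3
    have h4 : r * e + a = a + r * e := by ring
    rw [h4, h2, ← hs]
    have h5 : a + M + r * e = (a + r * e) + M := by ring
    rw [h5, pow_add]
    ring

end Pool.Agent.H12.KG
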