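import Pool.Agent.H12.KG.Iface

/-!
# Project KEW, block G: targets (helper12)
-/

namespace Pool.Agent.H12.KG

open AlgebraicGeometry CategoryTheory Pool.Agent.H12.KP

universe u

/-- The quotient grading on `S / w`. -/
def qgr {A S : Type u} [CommRing A] [CommRing S] [Algebra A S] (𝒮 : ℕ → Submodule A S)
    (w : Ideal S) : ℕ → Submodule A (S ⧸ w) :=
  fun n => (𝒮 n).map (Ideal.Quotient.mkₐ A w).toLinearMap

/-- QGR: the quotient grading is a grading. -/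
def S_QGR : Prop :=
  ∀ (A S : Type u) [CommRing A] [CommRing S] [Algebra A S] (𝒮 : ℕ → Submodule A S)
    [GradedAlgebra 𝒮] (w : Ideal S), w.IsHomogeneous 𝒮 → Nonempty (GradedAlgebra (qgr 𝒮 w))

/-- QPT: relevant primes of the quotient. -/
def S_QPT : Prop :=
  ∀ (A S : Type u) [CommRing A] [CommRing S] [Algebra A S] (𝒮 : ℕ → Submodule A S)
    [GradedAlgebra 𝒮] (w : Ideal S) [GradedAlgebra (qgr 𝒮 w)],
    (∀ P : Ideal S, w ≤ P → Rel 𝒮 P → Rel (qgr 𝒮 w) (P.map (Ideal.Quotient.mk w))) ∧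
    (∀ Q : Ideal (S ⧸ w), Rel (qgr 𝒮 w) Q → Rel 𝒮 (Q.comap (Ideal.Quotient.mk w)))

/-- The homogeneous ideal of a point of `Proj`. -/
def idl {A S : Type u} [CommRing A] [CommRing S] [Algebra A S] (𝒮 : ℕ → Submodule A S)
    [GradedAlgebra 𝒮] (x : Proj 𝒮) : Ideal S :=
  (show ProjectiveSpectrum 𝒮 from x).asHomogeneousIdeal.toIdeal

/-- PTS: points of `Proj`, specialisations, closed points, points of the special fibre. -/
def S_PTS : Prop :=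
  ∀ (A S : Type u) [CommRing A] [CommRing S] [Algebra A S] (𝒮 : ℕ → Submodule A S)
    [GradedAlgebra 𝒮], Algebra.adjoin A (𝒮 1 : Set S) = ⊤ →
    (∀ x : Proj 𝒮, Rel 𝒮 (idl 𝒮 x)) ∧
    (∀ P : Ideal S, Rel 𝒮 P → ∃ x : Proj 𝒮, idl 𝒮 x = P) ∧
    (∀ x y : Proj 𝒮, x ⤳ y ↔ idl 𝒮 x ≤ idl 𝒮 y) ∧
    (∀ x y : Proj 𝒮, idl 𝒮 x = idl 𝒮 y → x = y) ∧
    (∀ x : Proj 𝒮, IsClosed ({x} : Set (Proj 𝒮)) ↔
      ∀ Q : Ideal S, Rel 𝒮 Q → idl 𝒮 x ≤ Q → Q = idl 𝒮 x) ∧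
    ∀ (π : A) (x : Proj 𝒮), Sp (projStr 𝒮) π x ↔ algebraMap A S π ∈ idl 𝒮 x

/-- STK: stalks and residue fields of `Proj` inside the fraction field of `S / w`. -/
def S_STK : Prop :=
  ∀ (A S : Type u) [CommRing A] [CommRing S] [Algebra A S] (𝒮 : ℕ → Submodule A S)
    [GradedAlgebra 𝒮] (w : Proj 𝒮) (L : Type u) [Field L] [Algebra (S ⧸ idl 𝒮 w) L]
    [IsFractionRing (S ⧸ idl 𝒮 w) L],
    ∃ j : (Proj 𝒮).residueField w →+* L,
      (∀ (x : Proj 𝒮) (h : w ⤳ x) (f : L), (∃ s, j (rho h s) = f) ↔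
        f ∈ Loc (qgr 𝒮 (idl 𝒮 w)) L ((idl 𝒮 x).map (Ideal.Quotient.mk (idl 𝒮 w)))) ∧
      ∀ a : A, j (kA (projStr 𝒮) w a) =
        algebraMap (S ⧸ idl 𝒮 w) L (Ideal.Quotient.mk (idl 𝒮 w) (algebraMap A S a))

/-- UNI: units of the stalk seen in the residue field. -/
def S_UNI : Prop :=
  ∀ (X : Scheme.{u}) (w x : X) (h : w ⤳ x) (f : X.residueField w),
    (∃ v : (X.presheaf.stalk x)ˣ, rho h (v : X.presheaf.stalk x) = f) ↔
      f ≠ 0 ∧ (∃ s, rho h s = f) ∧ ∃ s, rho h s = f⁻¹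

/-- IMM: a closed immersion does not change residue fields, images of stalks, and so on. -/
def S_IMM : Prop :=
  ∀ (A : Type u) [CommRing A] (X Y : Scheme.{u}) (i : X ⟶ Y) (g : Y ⟶ Spec (CommRingCat.of A)),
    IsClosedImmersion i →
    (∀ w y : X, w ⤳ y ↔ i w ⤳ i y) ∧
    (∀ (w : X) (y' : Y), i w ⤳ y' → ∃ y : X, i y = y') ∧
    (∀ x y : X, i x = i y → x = y) ∧
    (∀ x : X, IsClosed ({x} : Set X) ↔ IsClosed ({i x} : Set Y)) ∧
    (∀ (π : A) (x : X), Sp (i ≫ g) π x ↔ Sp g π (i x)) ∧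
    ∀ w : X, ∃ k : Y.residueField (i w) →+* X.residueField w, Function.Bijective k ∧
      (∀ a : A, k (kA g (i w) a) = kA (i ≫ g) w a) ∧
      ∀ (x : X) (h : w ⤳ x) (h' : i w ⤳ i x),
        (∀ s : Y.presheaf.stalk (i x), ∃ t : X.presheaf.stalk x, k (rho h' s) = rho h t) ∧
        (∀ t : X.presheaf.stalk x, ∃ s : Y.presheaf.stalk (i x), k (rho h' s) = rho h t)

/-- ONED: the local ring at a generic point of the special fibre has dimension one. -/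
def S_ONED : Prop :=
  ∀ (A D : Type u) [CommRing A] [CommRing D] [IsDomain D] [IsNoetherianRing D] [Algebra A D]
    (𝒟 : ℕ → Submodule A D) [GradedAlgebra 𝒟] (L : Type u) [Field L] [Algebra D L]
    [IsFractionRing D L] (π : A), algebraMap A D π ≠ 0 →
    ∀ y ∈ (Ideal.span {algebraMap A D π}).minimalPrimes, Rel 𝒟 y →
    ∀ z ∈ Loc 𝒟 L ⊥, ∃ m : ℕ, algebraMap D L (algebraMap A D π) ^ m * z ∈ Loc 𝒟 L y

/-- INTB: integral elements `b` in `1 + π^n b` can be replaced by elements of the local ring. -/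
def S_INTB : Prop :=
  ∀ (O K : Type u) [CommRing O] [IsLocalRing O] [Field K] (φ : O →+* K) (p : ℕ), p.Prime →
    ∀ (π ε : O), π ∈ IsLocalRing.maximalIdeal O → IsUnit ε → ∀ (e a r : ℕ),
    (p : O) = ε * π ^ e → 1 ≤ a → e < a * (p - 1) →
    (∀ z : K, ∃ (m : ℕ) (s : O), φ π ^ m * z = φ s) →
    ∀ b : K, φ.IsIntegralElem b →
    ∃ (u : K) (s : O), u ≠ 0 ∧ 1 + φ π ^ (r * e + a) * b = u ^ (p ^ r) * (1 + φ π ^ (r * e + a) * φ s)

/-- CLEX: every relevant homogeneous prime is contained in a closed point over `π`. -/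
def S_CLEX : Prop :=
  ∀ (A S : Type u) [CommRing A] [IsLocalRing A] [IsNoetherianRing A] [CommRing S] [Algebra A S]
    (𝒮 : ℕ → Submodule A S) [GradedAlgebra 𝒮], (𝒮 1).FG → Algebra.adjoin A (𝒮 1 : Set S) = ⊤ →
    ∀ π ∈ IsLocalRing.maximalIdeal A, ∀ P : Ideal S, Rel 𝒮 P → ∃ Q : Ideal S, P ≤ Q ∧ Clo 𝒮 π Q

/-- LOCH: a finite domain over a henselian dvr of characteristic 0 is local. -/
def S_LOCH : Prop :=
  ∀ (A B : Type u) [CommRing A] [IsDomain A] [IsDiscreteValuationRing A] [HenselianLocalRing A]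
    [CharZero A] [CommRing B] [IsDomain B] [Algebra A B] [Module.Finite A B],
    Function.Injective (algebraMap A B) → IsLocalRing B

/-- UNQ: a horizontal curve has only one closed point. -/
def S_UNQ : Prop :=
  ∀ (A D : Type u) [CommRing A] [IsDomain A] [IsDiscreteValuationRing A] [HenselianLocalRing A]
    [CharZero A] [CommRing D] [IsDomain D] [Algebra A D]
    (𝒟 : ℕ → Submodule A D) [GradedAlgebra 𝒟], (𝒟 1).FG →
    Algebra.adjoin A (𝒟 1 : Set D) = ⊤ → ∀ π : A, Irreducible π → algebraMap A D π ≠ 0 →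
    (∀ P : Ideal D, Rel 𝒟 P → P ≠ ⊥ → Clo 𝒟 π P) →
    ∀ P Q : Ideal D, Clo 𝒟 π P → Clo 𝒟 π Q → P = Q

/-- WAL: weak approximation in `Loc ⊥` at the relevant minimal primes over `π`. -/
def S_WAL : Prop :=
  ∀ (A D : Type u) [CommRing A] [CommRing D] [IsDomain D] [IsNoetherianRing D] [Algebra A D]
    (𝒟 : ℕ → Submodule A D) [GradedAlgebra 𝒟] (L : Type u) [Field L] [Algebra D L]
    [IsFractionRing D L] (π : A), algebraMap A D π ≠ 0 → ∀ n : ℕ, 1 ≤ n →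
    ∀ H : Ideal D → L, (∀ y, H y ∈ Loc 𝒟 L ⊥ ∧ H y ≠ 0) →
    ∃ h ∈ Loc 𝒟 L ⊥, h ≠ 0 ∧
      ∀ y ∈ (Ideal.span {algebraMap A D π}).minimalPrimes, Rel 𝒟 y →
        ∃ s ∈ Loc 𝒟 L y, h = H y * (1 + algebraMap D L (algebraMap A D π) ^ n * s)

/-- P1P: the case `X = Proj 𝒮` of P1X. -/
def S_P1P : Prop :=
  ∀ (A S : Type u) [CommRing A] [IsDomain A] [IsDiscreteValuationRing A] [HenselianLocalRing A]
    [CharZero A] [CommRing S] [Algebra A S] (𝒮 : ℕ → Submodule A S) [GradedAlgebra 𝒮],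
    (𝒮 1).FG → Algebra.adjoin A (𝒮 1 : Set S) = ⊤ → ∀ π : A, Irreducible π →
    ∀ (p : ℕ), p.Prime → ∀ (ε : A) (e a r : ℕ), (p : A) = ε * π ^ e → IsUnit ε →
    1 ≤ a → e < a * (p - 1) → ∀ w x : Proj 𝒮, HorSurf (projStr 𝒮) π w → ∀ hx : w ⤳ x,
    IsClosed ({x} : Set (Proj 𝒮)) → ∀ h : (Proj 𝒮).residueField w, h ≠ 0 →
    (∀ (y : Proj 𝒮) (hy : w ⤳ y), y ⤳ x → GenSp (projStr 𝒮) π w y →
      InU (projStr 𝒮) π (p ^ r) (r * e + a) hy h) →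
    ∃ ξ : (Proj 𝒮).residueField w, ξ ≠ 0 ∧
      (∃ u : (Proj 𝒮).residueField w, u ≠ 0 ∧ ∃ v : ((Proj 𝒮).presheaf.stalk x)ˣ,
        ξ = h * u ^ (p ^ r) * rho hx (v : (Proj 𝒮).presheaf.stalk x)) ∧
      ∀ (x' : Proj 𝒮) (hx' : w ⤳ x'), IsClosed ({x'} : Set (Proj 𝒮)) → x' ≠ x →
        ∃ u : (Proj 𝒮).residueField w, u ≠ 0 ∧ ∃ v : ((Proj 𝒮).presheaf.stalk x')ˣ,
          ξ = u ^ (p ^ r) * rho hx' (v : (Proj 𝒮).presheaf.stalk x')

/-- WA1P: the case `X = Proj 𝒮` of WA1X. -/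
def S_WA1P : Prop :=
  ∀ (A S : Type u) [CommRing A] [IsDomain A] [IsDiscreteValuationRing A]
    [CommRing S] [Algebra A S] (𝒮 : ℕ → Submodule A S) [GradedAlgebra 𝒮],
    (𝒮 1).FG → Algebra.adjoin A (𝒮 1 : Set S) = ⊤ → ∀ π : A, Irreducible π →
    ∀ n : ℕ, 1 ≤ n → ∀ w : Proj 𝒮, ¬ Sp (projStr 𝒮) π w →
    ∀ H : Proj 𝒮 → (Proj 𝒮).residueField w, (∀ y, H y ≠ 0) →
    ∃ h : (Proj 𝒮).residueField w, h ≠ 0 ∧ ∀ (y : Proj 𝒮) (hy : w ⤳ y),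
      GenSp (projStr 𝒮) π w y → ∃ s : (Proj 𝒮).presheaf.stalk y,
        h = H y * (1 + kA (projStr 𝒮) w π ^ n * rho hy s)

end Pool.Agent.H12.KG
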