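import Pool.Agent.H12.KP.Final
import Pool.Agent.H63.KG.BBP
import Pool.Agent.H60.KG.CLEX
import Pool.Agent.H12.KG.COMB
import Pool.Agent.H16.KG.IMM
import Pool.Agent.H12.KG.INTB
import Pool.Agent.H45.KG.K1D
import Pool.Agent.H2.KG.LAST
import Pool.Agent.H61.KG.LOCH
import Pool.Agent.H60.KG.ONED
import Pool.Agent.H60.KG.P1P
import Pool.Agent.H6.KG.P1X
import Pool.Agent.H67.KG.PTS
import Pool.Agent.H30.KG.QGR
import Pool.Agent.H67.KG.QPT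
import Pool.Agent.H30.KG.STK
import Pool.Agent.H38.KG.UCX
import Pool.Agent.H30.KG.UNI
import Pool.Agent.H29.KG.UNQ
import Pool.Agent.H68.KG.WA1P
import Pool.Agent.H6.KG.WA1X
import Pool.Agent.H51.KG.WAL

/-!
# Project KEW, blocks G and (m): assembly (helper12)
-/

namespace Pool.Agent.H12.KG

open Pool.Agent.H12.KP

universe u

theorem done_P1P : S_P1P.{u} :=
  Pool.Agent.H60.KG.pf_P1P done_P1 Pool.Agent.H30.KG.pf_QGR Pool.Agent.H67.KG.pf_QPT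
    Pool.Agent.H67.KG.pf_PTS Pool.Agent.H30.KG.pf_STK Pool.Agent.H60.KG.pf_CLEX
    Pool.Agent.H30.KG.pf_UNI Pool.Agent.H60.KG.pf_ONED
    (pf_INTB Pool.Agent.H78.KP.pf_BIN)

theorem done_P1X : S_P1X.{u} :=
  Pool.Agent.H6.KG.pf_P1X done_P1P Pool.Agent.H16.KG.pf_IMM Pool.Agent.H30.KG.pf_UNI

theorem done_WA1P : S_WA1P.{u} :=
  Pool.Agent.H68.KG.pf_WA1P (Pool.Agent.H51.KG.pf_WAL Pool.Agent.H74.KP.pf_WAG)
    Pool.Agent.H30.KG.pf_QGR Pool.Agent.H67.KG.pf_QPT Pool.Agent.H67.KG.pf_PTS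
    Pool.Agent.H30.KG.pf_STK

theorem done_WA1X : S_WA1X.{u} := Pool.Agent.H6.KG.pf_WA1X done_WA1P Pool.Agent.H16.KG.pf_IMM

theorem done_UNQ : S_UNQ.{u} :=
  Pool.Agent.H29.KG.pf_UNQ done_AVOID Pool.Agent.H34.KP.pf_NAK Pool.Agent.H61.KG.pf_LOCH

theorem done_UCX : S_UCX.{u} :=
  Pool.Agent.H38.KG.pf_UCX Pool.Agent.H60.KG.pf_CLEX done_UNQ Pool.Agent.H30.KG.pf_QGR
    Pool.Agent.H67.KG.pf_QPT Pool.Agent.H67.KG.pf_PTS Pool.Agent.H16.KG.pf_IMM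

/-- The last step of project KEW. -/
theorem done_LAST : S_LAST.{u} :=
  Pool.Agent.H2.KG.pf_LAST pf_COMB Pool.Agent.H45.KG.pf_K1D
    (Pool.Agent.H63.KG.pf_BBP Pool.Agent.H45.KG.pf_K1D) done_P1X done_WA1X done_UCX

end Pool.Agent.H12.KG
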