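import Pool.Agent.H12.KP.Targets4

/-!
# Project KEW, block G: interface between block P1 and schemes (helper12)
-/

namespace Pool.Agent.H12.KG

open AlgebraicGeometry CategoryTheory Pool.Agent.H12.KP

universe u

section General

variable {X : Scheme.{u}}

/-- The map `O_{X,x} → κ(w)` for a specialisation `w ⤳ x`. -/
noncomputable def rho {w x : X} (h : w ⤳ x) : X.presheaf.stalk x →+* X.residueField w :=
  (X.presheaf.stalkSpecializes h ≫ X.residue w).hom

variable {A : Type u} [CommRing A]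

/-- The structure map `A → O_{X,x}` of a morphism `f : X → Spec A`. -/
noncomputable def stA (f : X ⟶ Spec (CommRingCat.of A)) (x : X) : A →+* X.presheaf.stalk x :=
  ((Scheme.ΓSpecIso (CommRingCat.of A)).inv ≫ f.appTop ≫ X.presheaf.germ ⊤ x trivial).hom

/-- The structure map `A → κ(w)`. -/
noncomputable def kA (f : X ⟶ Spec (CommRingCat.of A)) (w : X) : A →+* X.residueField w :=
  (X.residue w).hom.comp (stA f w)

/-- `x` is a point of the special fibre `π = 0`. -/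
def Sp (f : X ⟶ Spec (CommRingCat.of A)) (π : A) (x : X) : Prop := ¬ IsUnit (stA f x π)

/-- `y` is a generic point of the special fibre of the closure of `w`. -/
def GenSp (f : X ⟶ Spec (CommRingCat.of A)) (π : A) (w y : X) : Prop :=
  w ⤳ y ∧ Sp f π y ∧ ∀ y' : X, w ⤳ y' → y' ⤳ y → Sp f π y' → y' = y

/-- `w` is the generic point of a horizontal surface. -/
structure HorSurf (f : X ⟶ Spec (CommRingCat.of A)) (π : A) (w : X) : Prop where
  hor : ¬ Sp f π w
  dim : ∀ y x : X, w ⤳ y → y ⤳ x → x ≠ y → Sp f π y → IsClosed ({x} : Set X)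

/-- The group `U_y(w)`: products of a `q`-th power and an element `1 + π^n b` with `b` integral
over `O_{X,y}`. -/
def InU (f : X ⟶ Spec (CommRingCat.of A)) (π : A) (q n : ℕ) {w y : X} (h : w ⤳ y)
    (g : X.residueField w) : Prop :=
  ∃ u b : X.residueField w, u ≠ 0 ∧ (rho h).IsIntegralElem b ∧ g = u ^ q * (1 + kA f w π ^ n * b)

end General

/-- The structure morphism of `Proj 𝒮` for a graded `A`-algebra. -/
noncomputable def projStr {A S : Type u} [CommRing A] [CommRing S] [Algebra A S]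
    (𝒮 : ℕ → Submodule A S) [GradedAlgebra 𝒮] : Proj 𝒮 ⟶ Spec (CommRingCat.of A) :=
  Proj.toSpecZero 𝒮 ≫ Spec.map (CommRingCat.ofHom (algebraMap A (𝒮 0)))

/-- P1X: theorem (P1) for closed subschemes of `Proj`. -/
def S_P1X : Prop :=
  ∀ (A S : Type u) [CommRing A] [IsDomain A] [IsDiscreteValuationRing A] [HenselianLocalRing A]
    [CharZero A] [CommRing S] [Algebra A S] (𝒮 : ℕ → Submodule A S) [GradedAlgebra 𝒮],
    (𝒮 1).FG → Algebra.adjoin A (𝒮 1 : Set S) = ⊤ →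
    ∀ (X : Scheme.{u}) (i : X ⟶ Proj 𝒮), IsClosedImmersion i → ∀ π : A, Irreducible π →
    ∀ (p : ℕ), p.Prime → ∀ (ε : A) (e a r : ℕ), (p : A) = ε * π ^ e → IsUnit ε →
    1 ≤ a → e < a * (p - 1) → ∀ w x : X, HorSurf (i ≫ projStr 𝒮) π w → ∀ hx : w ⤳ x,
    IsClosed ({x} : Set X) → ∀ h : X.residueField w, h ≠ 0 →
    (∀ (y : X) (hy : w ⤳ y), y ⤳ x → GenSp (i ≫ projStr 𝒮) π w y →
      InU (i ≫ projStr 𝒮) π (p ^ r) (r * e + a) hy h) →
    ∃ ξ : X.residueField w, ξ ≠ 0 ∧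
      (∃ u : X.residueField w, u ≠ 0 ∧ ∃ v : (X.presheaf.stalk x)ˣ,
        ξ = h * u ^ (p ^ r) * rho hx (v : X.presheaf.stalk x)) ∧
      ∀ (x' : X) (hx' : w ⤳ x'), IsClosed ({x'} : Set X) → x' ≠ x →
        ∃ u : X.residueField w, u ≠ 0 ∧ ∃ v : (X.presheaf.stalk x')ˣ,
          ξ = u ^ (p ^ r) * rho hx' (v : X.presheaf.stalk x')

/-- WA1X: weak approximation at the generic points of the special fibre of a surface. -/
def S_WA1X : Prop :=
  ∀ (A S : Type u) [CommRing A] [IsDomain A] [IsDiscreteValuationRing A]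
    [CommRing S] [Algebra A S] (𝒮 : ℕ → Submodule A S) [GradedAlgebra 𝒮],
    (𝒮 1).FG → Algebra.adjoin A (𝒮 1 : Set S) = ⊤ →
    ∀ (X : Scheme.{u}) (i : X ⟶ Proj 𝒮), IsClosedImmersion i → ∀ π : A, Irreducible π →
    ∀ n : ℕ, 1 ≤ n → ∀ w : X, ¬ Sp (i ≫ projStr 𝒮) π w →
    ∀ H : X → X.residueField w, (∀ y, H y ≠ 0) →
    ∃ h : X.residueField w, h ≠ 0 ∧ ∀ (y : X) (hy : w ⤳ y), GenSp (i ≫ projStr 𝒮) π w y →
      ∃ s : X.presheaf.stalk y, h = H y * (1 + kA (i ≫ projStr 𝒮) w π ^ n * rho hy s)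

/-- UCX: horizontal curves have exactly one closed point. -/
def S_UCX : Prop :=
  ∀ (A S : Type u) [CommRing A] [IsDomain A] [IsDiscreteValuationRing A] [HenselianLocalRing A]
    [CharZero A] [CommRing S] [Algebra A S] (𝒮 : ℕ → Submodule A S) [GradedAlgebra 𝒮],
    (𝒮 1).FG → Algebra.adjoin A (𝒮 1 : Set S) = ⊤ →
    ∀ (X : Scheme.{u}) (i : X ⟶ Proj 𝒮), IsClosedImmersion i → ∀ π : A, Irreducible π →
    (∀ x : X, IsClosed ({x} : Set X) → Sp (i ≫ projStr 𝒮) π x) ∧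
    (∀ w : X, ∃ x : X, w ⤳ x ∧ IsClosed ({x} : Set X)) ∧
    ∀ z : X, ¬ Sp (i ≫ projStr 𝒮) π z → (∀ x : X, z ⤳ x → x ≠ z → IsClosed ({x} : Set X)) →
      ∃! x : X, z ⤳ x ∧ IsClosed ({x} : Set X)

end Pool.Agent.H12.KG
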