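import Pool.Agent.H12.KG.Iface
import Pool.Agent.H62.MK.Defs3
import Pool.Agent.H19.KN.Defs

/-!
# Project KEW, block (m): the last step, targets (helper12)
-/

namespace Pool.Agent.H12.KG

open AlgebraicGeometry CategoryTheory Pool.Agent.H12.KP Pool.Agent.H62.MK Pool.Agent.H19.KN

universe u

section comb

variable {X : Type u} (rel : X → X → Prop) (Sp : X → Prop)

/-- `y` is a minimal point of `Sp` below `x`. -/
def Gen (x y : X) : Prop := rel x y ∧ Sp y ∧ ∀ y', rel x y' → rel y' y → Sp y' → y' = y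

end comb

/-- COMB: the last step, combinatorial form. -/
def S_COMB : Prop :=
  ∀ (X : Type u) (rel : X → X → Prop) (_ : ∀ x, rel x x)
    (_ : ∀ x y z, rel x y → rel y z → rel x z) (Sp Cl : X → Prop) (q : ℕ) (I1 I0 : Type u)
    [DecidableEq I1] [DecidableEq I0] (p1 : I1 → X) (p0 : I0 → X) (G1 : I1 → Type u)
    (G0 : I0 → Type u) [∀ i, AddCommGroup (G1 i)] [∀ i, AddCommGroup (G0 i)]
    (dd : (Π₀ w, G1 w) →+ (Π₀ v, G0 v)) (UG : ∀ w : I1, X → AddSubgroup (G1 w)),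
    (∀ w c v, dd (DFinsupp.single w c) v ≠ 0 → rel (p1 w) (p0 v)) →
    (∀ x y, rel x y → Sp x → Sp y) → (∀ y, ∃ x, rel y x ∧ Cl x) → (∀ x, Cl x → Sp x) →
    (∀ w v, ¬ Sp (p1 w) → Sp (p0 v) → rel (p1 w) (p0 v) → Gen rel Sp (p1 w) (p0 v)) →
    (∀ w v, ¬ Sp (p1 w) → Sp (p0 v) → rel (p1 w) (p0 v) → ∀ c ∈ UG w (p0 v),
      ∃ g, dd (DFinsupp.single w c) v = q • g) →
    (∀ v, ¬ Sp (p0 v) → ∀ x x', rel (p0 v) x → Cl x → rel (p0 v) x' → Cl x' → x = x') →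
    (∀ w, ¬ Sp (p1 w) → ∀ x, Cl x → rel (p1 w) x → ∀ g : G1 w,
      (∀ y, Gen rel Sp (p1 w) y → rel y x → g ∈ UG w y) →
      ∃ ξ : G1 w,
        (∀ v, rel (p1 w) (p0 v) → rel (p0 v) x → ∃ c, dd (DFinsupp.single w (ξ - g)) v = q • c) ∧
        ∀ x', Cl x' → x' ≠ x → ∀ v, rel (p1 w) (p0 v) → rel (p0 v) x' →
          ∃ c, dd (DFinsupp.single w ξ) v = q • c) →
    (∀ w, ¬ Sp (p1 w) → ∀ H : X → G1 w, ∃ h : G1 w, ∀ y, Gen rel Sp (p1 w) y →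
      h - H y ∈ UG w y) →
    ∀ (J : Type u) [Finite J] (U : J → X → Prop), (∀ a x y, U a x → rel y x → U a y) →
    (∀ x, ∃ a, U a x) → ∀ (h : J → Π₀ w, G1 w) (z : Π₀ v, G0 v),
    (∀ a v y, U a y → rel (p0 v) y → Sp y → ∃ c, dd (h a) v - z v = q • c) →
    (∀ a b w y, U a y → U b y → ¬ Sp (p1 w) → Gen rel Sp (p1 w) y → h a w - h b w ∈ UG w y) →
    (∀ a b w, U a (p1 w) → U b (p1 w) → Sp (p1 w) → ∃ c, h a w - h b w = q • c) →
    ∃ (h' : Π₀ w, G1 w) (c' : Π₀ v, G0 v), z = dd h' + q • c'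

/-- K1D: `K_1` of a field is the group of units; the group of small symbols in degree 1. -/
def S_K1D : Prop :=
  ∀ (F : Type u) [Field F],
    (∀ x : MilnorK F 1, ∃ u : Fˣ, x = sym (fun _ => u)) ∧
    (∀ u v : Fˣ, (sym (fun _ => u * v) : MilnorK F 1) = sym (fun _ => u) + sym (fun _ => v)) ∧
    (∀ (u : Fˣ) (k : ℕ), (sym (fun _ => u ^ k) : MilnorK F 1) = k • sym (fun _ => u)) ∧
    (∀ u v : Fˣ, (sym (fun _ => u) : MilnorK F 1) = sym (fun _ => v) → u = v) ∧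
    (∀ (q n : ℕ) (π : F) (S : Subring F), π ∈ S → 1 ≤ n →
      (∀ a ∈ S, ∃ b ∈ S, (1 + π * a) * b = 1) → ∀ u : Fˣ,
      ((sym (fun _ => u) : MilnorK F 1) ∈ USub q π n S 1 ↔
        ∃ t s : Fˣ, s ∈ Small π n S ∧ u = t ^ q * s))

/-- The ring `B_y(w)`: elements of `κ(w)` integral over `O_{X,y}`. -/
noncomputable def BB {X : Scheme.{u}} {w y : X} (h : w ⤳ y) : Subring (X.residueField w) :=
  icl (rho h).range (X.residueField w)

/-- BBP: properties of `B_y(w)`. -/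
def S_BBP : Prop :=
  ∀ (A : Type u) [CommRing A] (X : Scheme.{u}) (f : X ⟶ Spec (CommRingCat.of A)) (π : A)
    (w y : X) (h : w ⤳ y),
    (∀ b : X.residueField w, b ∈ BB h ↔ (rho h).IsIntegralElem b) ∧
    (∀ a : A, kA f w a ∈ BB h) ∧
    (Sp f π y → ∀ a ∈ BB h, ∃ b ∈ BB h, (1 + kA f w π * a) * b = 1) ∧
    (∀ (q n : ℕ), Sp f π y → 1 ≤ n → ∀ g : (X.residueField w)ˣ,
      (sym (fun _ => g) : MilnorK (X.residueField w) 1) ∈ USub q (kA f w π) n (BB h) 1 →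
        InU f π q n h (g : X.residueField w)) ∧
    (∀ (q n : ℕ), ∀ s : X.presheaf.stalk y, ∀ g : (X.residueField w)ˣ,
      (g : X.residueField w) = 1 + kA f w π ^ n * rho h s → 
        (sym (fun _ => g) : MilnorK (X.residueField w) 1) ∈ USub q (kA f w π) n (BB h) 1) ∧
    (∀ (z x : X) (hz : w ⤳ z) (_ : z ⤳ x) (hx : w ⤳ x) (v : (X.presheaf.stalk x)ˣ),
      (rho hz).IsIntegralElem (rho hx (v : X.presheaf.stalk x)) ∧
      (rho hz).IsIntegralElem (rho hx (v : X.presheaf.stalk x))⁻¹)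

/-- LAST: the last step of the project, for schemes. `I1` are the points of codimension `d - 1`,
`I0` the points of codimension `d`, `dd` is the differential. -/
def S_LAST : Prop :=
  ∀ (A S : Type u) [CommRing A] [IsDomain A] [IsDiscreteValuationRing A] [HenselianLocalRing A]
    [CharZero A] [CommRing S] [Algebra A S] (𝒮 : ℕ → Submodule A S) [GradedAlgebra 𝒮],
    (𝒮 1).FG → Algebra.adjoin A (𝒮 1 : Set S) = ⊤ →
    ∀ (X : Scheme.{u}) (i : X ⟶ Proj 𝒮), IsClosedImmersion i → ∀ π : A, Irreducible π →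
    ∀ (p : ℕ), p.Prime → ∀ (ε : A) (e r n : ℕ), (p : A) = ε * π ^ e → IsUnit ε →
    1 ≤ r → 2 * (r * e) + 1 ≤ n →
    ∀ (I1 I0 : Type u) [DecidableEq I1] [DecidableEq I0] (p1 : I1 → X) (p0 : I0 → X),
    (∀ (w : I1) (y x : X), p1 w ⤳ y → y ⤳ x → y ≠ p1 w → x ≠ y → IsClosed ({x} : Set X)) →
    (∀ (v : I0) (x : X), p0 v ⤳ x → x ≠ p0 v → IsClosed ({x} : Set X)) →
    (∀ (w : I1) (v : I0) (y : X), p1 w ⤳ y → y ⤳ p0 v → y = p1 w ∨ y = p0 v) →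
    ∀ (dd : (Π₀ w : I1, MilnorK (X.residueField (p1 w)) 1) →+
      (Π₀ v : I0, MilnorK (X.residueField (p0 v)) 0)),
    (∀ w c v, dd (DFinsupp.single w c) v ≠ 0 → p1 w ⤳ p0 v) →
    (∀ (w : I1) (v : I0) (hwv : p1 w ⤳ p0 v) (u : (X.residueField (p1 w))ˣ),
      (rho hwv).IsIntegralElem (u : X.residueField (p1 w)) →
      (rho hwv).IsIntegralElem (((u⁻¹ : (X.residueField (p1 w))ˣ)) : X.residueField (p1 w)) →
      dd (DFinsupp.single w (sym (fun _ => u))) v = 0) →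
    ∀ (J : Type u) [Finite J] (U : J → Set X), (∀ a x y, x ∈ U a → y ⤳ x → y ∈ U a) →
    (∀ x, ∃ a, x ∈ U a) → ∀ (h : J → Π₀ w : I1, MilnorK (X.residueField (p1 w)) 1)
      (z : Π₀ v : I0, MilnorK (X.residueField (p0 v)) 0),
    (∀ a v y, y ∈ U a → p0 v ⤳ y → Sp (i ≫ projStr 𝒮) π y →
      ∃ c, dd (h a) v - z v = p ^ r • c) →
    (∀ a b w y, y ∈ U a → y ∈ U b → ¬ Sp (i ≫ projStr 𝒮) π (p1 w) →
      GenSp (i ≫ projStr 𝒮) π (p1 w) y → ∀ hwy : p1 w ⤳ y,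
      h a w - h b w ∈ USub (p ^ r) (kA (i ≫ projStr 𝒮) (p1 w) π) n (BB hwy) 1) →
    (∀ a b w, p1 w ∈ U a → p1 w ∈ U b → Sp (i ≫ projStr 𝒮) π (p1 w) →
      ∃ c, h a w - h b w = p ^ r • c) →
    ∃ (h' : Π₀ w : I1, MilnorK (X.residueField (p1 w)) 1)
      (c' : Π₀ v : I0, MilnorK (X.residueField (p0 v)) 0), z = dd h' + p ^ r • c'

end Pool.Agent.H12.KG
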